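import Mathlib

/-!
# Quadratic characters of commutative groups with prescribed values
-/

set_option autoImplicit false

namespace Pool.Agent.Q110.S3T

/-- the nontrivial character of `ZMod 2` -/
def e2 (x : ZMod 2) : ℤˣ := if x = 0 then 1 else -1

theorem e2_add (x y : ZMod 2) : e2 (x + y) = e2 x * e2 y := by
  revert x y
  decide

/-- If no product of finitely many distinct members of the sequence `b` is a square, then a
character of order two is `-1` on the sequence. -/
theorem exists_character {A : Type} [CommGroup A] (b : ℕ → A)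
    (hb : ∀ S : Finset ℕ, S.Nonempty → ∀ s : A, ∏ n ∈ S, b n ≠ s ^ 2) :
    ∃ ψ : A →* ℤˣ, ∀ n, ψ (b n) = -1 := by
  classical
  let H : Subgroup A := (powMonoidHom 2 : A →* A).range
  have h2 : ∀ x : Additive (A ⧸ H), 2 • x = 0 := by
    intro x
    obtain ⟨a, ha⟩ := QuotientGroup.mk_surjective (s := H) (Additive.toMul x)
    have : x = Additive.ofMul ((a : A ⧸ H)) := by rw [ha]; rfl
    rw [this, ← ofMul_pow, ← QuotientGroup.mk_pow]
    have h3 : ((a ^ 2 : A) : A ⧸ H) = 1 := (QuotientGroup.eq_one_iff _).2 ⟨a, rfl⟩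
    rw [h3]
    rfl
  let _ : Module (ZMod 2) (Additive (A ⧸ H)) := AddCommGroup.zmodModule h2
  let v : ℕ → Additive (A ⧸ H) := fun n => Additive.ofMul ((b n : A ⧸ H))
  have hv : LinearIndependent (ZMod 2) v := by
    rw [linearIndependent_iff']
    intro s g hg i hi
    by_contra hne
    have h1 : ∀ x : ZMod 2, x = 0 ∨ x = 1 := by decide
    have h3 : ∑ i ∈ s.filter (fun i => g i ≠ 0), v i = 0 := by
      rw [← hg, Finset.sum_filter]
      refine Finset.sum_congr rfl fun j _ => ?_
      rcases h1 (g j) with h | h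
      · rw [h, zero_smul, if_neg (by simp)]
      · rw [h, one_smul, if_pos one_ne_zero]
    have h4 : ((∏ i ∈ s.filter (fun i => g i ≠ 0), b i : A) : A ⧸ H) = 1 := by
      have h5 : Additive.ofMul ((∏ i ∈ s.filter (fun i => g i ≠ 0), b i : A) : A ⧸ H) = 0 := by
        rw [← h3]
        have h6 := map_prod (QuotientGroup.mk' H) b (s.filter (fun i => g i ≠ 0))
        rw [QuotientGroup.mk'_apply] at h6
        rw [h6, ofMul_prod]
        rfl
      exact Additive.ofMul.injective h5
    rw [QuotientGroup.eq_one_iff] at h4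
    obtain ⟨a, ha⟩ := h4
    exact hb _ ⟨i, Finset.mem_filter.2 ⟨hi, hne⟩⟩ a ha.symm
  let f0 := (Module.Basis.span hv).constr (ZMod 2) (fun _ : ℕ => (1 : ZMod 2))
  obtain ⟨f, hf⟩ := LinearMap.exists_extend f0
  have hf1 : ∀ n, f (v n) = 1 := by
    intro n
    have h1 : f0 (Module.Basis.span hv n) = 1 := by
      simp only [f0, Module.Basis.constr_basis]
    rw [← hf, LinearMap.comp_apply, Submodule.subtype_apply, Module.Basis.span_apply] at h1
    exact h1
  refine ⟨⟨⟨fun a => e2 (f (Additive.ofMul (a : A ⧸ H))), ?_⟩, ?_⟩, ?_⟩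
  · have : Additive.ofMul ((1 : A) : A ⧸ H) = 0 := rfl
    rw [this, map_zero]
    rfl
  · intro a c
    have : Additive.ofMul ((a * c : A) : A ⧸ H) = Additive.ofMul (a : A ⧸ H) + Additive.ofMul (c : A ⧸ H) := rfl
    show e2 (f (Additive.ofMul ((a * c : A) : A ⧸ H))) = _
    rw [this, map_add, e2_add]
  · intro n
    show e2 (f (v n)) = -1
    rw [hf1]
    rfl

end Pool.Agent.Q110.S3T
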