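import Mathlib
import Pool.Agent.Q110.S3T.Sign

/-!
# The local field `𝔽₄((t))`, its coefficientwise Frobenius and a discontinuous character
-/

set_option autoImplicit false

open Filter Topology

namespace Pool.Agent.Q110.S3T

/-- the field with four elements -/
abbrev F : Type := GaloisField 2 2

theorem pow_four (x : F) : x ^ 4 = x := by
  classical
  have : Fintype F := Fintype.ofFinite F
  have h := FiniteField.pow_card x
  have h2 : Fintype.card F = 4 := by
    rw [← Nat.card_eq_fintype_card, GaloisField.card 2 2 (by norm_num)]; norm_num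
  rwa [h2] at h

theorem exists_omega : ∃ w : F, w ^ 2 = w + 1 := by
  classical
  have : Fintype F := Fintype.ofFinite F
  have h2 : Fintype.card F = 4 := by
    rw [← Nat.card_eq_fintype_card, GaloisField.card 2 2 (by norm_num)]; norm_num
  have h3 : ∃ w : F, w ∉ ({0, 1} : Finset F) := by
    by_contra hc
    push Not at hc
    have h4 : Fintype.card F ≤ ({0, 1} : Finset F).card := Finset.card_le_card (fun x _ => hc x)
    have h5 : ({0, 1} : Finset F).card ≤ 2 := Finset.card_le_two
    omega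
  obtain ⟨w, hw⟩ := h3
  rw [Finset.mem_insert, Finset.mem_singleton, not_or] at hw
  refine ⟨w, ?_⟩
  have h4 := pow_four w
  have hc : (2 : F) = 0 := CharTwo.two_eq_zero
  have h5 : w * (w - 1) * (w ^ 2 + w + 1) = 0 := by linear_combination h4
  rcases mul_eq_zero.1 h5 with h | h
  · rcases mul_eq_zero.1 h with h | h
    · exact (hw.1 h).elim
    · exact (hw.2 (sub_eq_zero.1 h)).elim
  · linear_combination h - (w + 1) * hc

/-- a primitive third root of unity -/
noncomputable def w : F := exists_omega.choose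

theorem w_sq : w ^ 2 = w + 1 := exists_omega.choose_spec

open Classical in
/-- the norm of a Laurent series -/
noncomputable def nm (x : HahnSeries ℤ F) : ℝ := if x = 0 then 0 else (2 : ℝ) ^ (-x.order)

theorem nm_zero : nm 0 = 0 := if_pos rfl

theorem nm_pos {x : HahnSeries ℤ F} (hx : x ≠ 0) : 0 < nm x := by
  unfold nm
  rw [if_neg hx]
  positivity

theorem nm_nonneg (x : HahnSeries ℤ F) : 0 ≤ nm x := by
  by_cases hx : x = 0
  · rw [hx, nm_zero]
  · exact (nm_pos hx).le

theorem nm_le_iff (x : HahnSeries ℤ F) (n : ℤ) :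
    nm x ≤ (2 : ℝ) ^ (-n) ↔ ∀ j < n, x.coeff j = 0 := by
  by_cases hx : x = 0
  · subst hx
    rw [nm_zero]
    exact ⟨fun _ j _ => rfl, fun _ => by positivity⟩
  · rw [← HahnSeries.le_order_iff_forall hx]
    unfold nm
    rw [if_neg hx, zpow_le_zpow_iff_right₀ (by norm_num)]
    exact neg_le_neg_iff

theorem nm_mul (x y : HahnSeries ℤ F) : nm (x * y) = nm x * nm y := by
  by_cases hx : x = 0
  · rw [hx, zero_mul, nm_zero, zero_mul]
  by_cases hy : y = 0
  · rw [hy, mul_zero, nm_zero, mul_zero]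
  unfold nm
  rw [if_neg (mul_ne_zero hx hy), if_neg hx, if_neg hy, HahnSeries.order_mul hx hy, neg_add,
    zpow_add₀ (by norm_num)]

theorem nm_add_le (x y : HahnSeries ℤ F) : nm (x + y) ≤ max (nm x) (nm y) := by
  by_cases hx : x = 0
  · rw [hx, zero_add]; exact le_max_right _ _
  by_cases hy : y = 0
  · rw [hy, add_zero]; exact le_max_left _ _
  by_cases hxy : x + y = 0
  · rw [hxy, nm_zero]; exact (nm_nonneg x).trans (le_max_left _ _)
  have h := HahnSeries.min_order_le_order_add hxy
  unfold nm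
  rw [if_neg hxy, if_neg hx, if_neg hy]
  rcases min_le_iff.1 h with h | h
  · exact le_max_of_le_left ((zpow_le_zpow_iff_right₀ (by norm_num)).2 (neg_le_neg h))
  · exact le_max_of_le_right ((zpow_le_zpow_iff_right₀ (by norm_num)).2 (neg_le_neg h))

/-- the absolute value -/
noncomputable def av : AbsoluteValue (HahnSeries ℤ F) ℝ where
  toFun := nm
  map_mul' := nm_mul
  nonneg' := nm_nonneg
  eq_zero' x := ⟨fun h => by_contra fun hx => (nm_pos hx).ne' h, fun h => by rw [h, nm_zero]⟩
  add_le' x y := (nm_add_le x y).trans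
    (max_le (le_add_of_nonneg_right (nm_nonneg y)) (le_add_of_nonneg_left (nm_nonneg x)))

/-- the field `𝔽₄((t))` -/
def LK : Type := HahnSeries ℤ F

noncomputable instance : NormedField LK := av.toNormedField

theorem norm_eq (x : LK) : ‖x‖ = nm x := rfl

/-- the series with given coefficients in nonnegative degrees -/
noncomputable def Th (c : ℕ → F) : HahnSeries ℤ F :=
  HahnSeries.ofSuppBddBelow (fun j : ℤ => if 0 ≤ j then c j.toNat else 0)
    ⟨0, fun j hj => by
      by_contra h
      exact hj (if_neg h)⟩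

theorem Th_coeff (c : ℕ → F) (j : ℤ) : (Th c).coeff j = if 0 ≤ j then c j.toNat else 0 := rfl

/-- the same as element of `LK` -/
noncomputable def ThK (c : ℕ → F) : LK := Th c

instance : ProperSpace LK := by
  let _ : TopologicalSpace F := ⊥
  have : DiscreteTopology F := ⟨rfl⟩
  have hcont : Continuous ThK := by
    rw [continuous_iff_continuousAt]
    intro c
    rw [ContinuousAt, Metric.tendsto_nhds]
    intro ε hε
    obtain ⟨n, hn⟩ := exists_pow_lt_of_lt_one hε (show (1 / 2 : ℝ) < 1 by norm_num)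
    have h1 : ∀ᶠ c' in 𝓝 c, ∀ i ∈ Finset.range n, c' i = c i := by
      rw [Filter.eventually_all_finset]
      intro i _
      exact (continuous_apply i).continuousAt.eventually
        ((isOpen_discrete {c i}).mem_nhds rfl)
    filter_upwards [h1] with c' hc'
    rw [dist_eq_norm]
    refine lt_of_le_of_lt ?_ hn
    have h2 : nm (Th c' - Th c) ≤ (2 : ℝ) ^ (-(n : ℤ)) := by
      rw [nm_le_iff]
      intro j hj
      rw [HahnSeries.coeff_sub, Th_coeff, Th_coeff]
      split_ifs with h0
      · rw [hc' j.toNat (Finset.mem_range.2 (by omega)), sub_self]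
      · rw [sub_self]
    refine h2.trans (le_of_eq ?_)
    rw [zpow_neg, zpow_natCast, one_div, inv_pow]
  have hcpt : IsCompact (Metric.closedBall (0 : LK) 1) := by
    have h1 : Metric.closedBall (0 : LK) 1 = Set.range ThK := by
      ext x
      rw [Metric.mem_closedBall, dist_zero_right]
      constructor
      · intro hx
        have hx' := (nm_le_iff x 0).1 (show nm x ≤ (2 : ℝ) ^ (-(0 : ℤ)) by
          rw [neg_zero, zpow_zero]; exact hx)
        refine ⟨fun n => HahnSeries.coeff x (n : ℤ), ?_⟩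
        refine HahnSeries.ext (funext fun j => ?_)
        show (Th _).coeff j = HahnSeries.coeff x j
        rw [Th_coeff]
        split_ifs with h0
        · rw [Int.toNat_of_nonneg h0]
        · exact (hx' j (not_le.1 h0)).symm
      · rintro ⟨c, rfl⟩
        have h2 : nm (Th c) ≤ (2 : ℝ) ^ (-(0 : ℤ)) := by
          rw [nm_le_iff]
          intro j hj
          rw [Th_coeff, if_neg (not_le.2 hj)]
        rw [neg_zero, zpow_zero] at h2
        exact h2
    rw [h1]
    exact isCompact_range hcont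
  let inst : NontriviallyNormedField LK :=
    { (inferInstance : NormedField LK) with
      non_trivial := by
        refine ⟨(HahnSeries.single (-1 : ℤ) (1 : F) : HahnSeries ℤ F), ?_⟩
        show 1 < nm _
        unfold nm
        rw [if_neg (by simp), HahnSeries.order_single one_ne_zero]
        norm_num }
  have : LocallyCompactSpace LK :=
    hcpt.locallyCompactSpace_of_mem_nhds_of_addGroup (Metric.closedBall_mem_nhds (0 : LK) one_pos)
  exact ProperSpace.of_nontriviallyNormedField_of_weaklyLocallyCompactSpace LK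

/-- the coefficientwise Frobenius -/
noncomputable def sg0 : HahnSeries ℤ F →+* HahnSeries ℤ F where
  toFun x := x.map (frobenius F 2)
  map_one' := by
    refine HahnSeries.ext (funext fun j => ?_)
    rw [HahnSeries.map_coeff, HahnSeries.coeff_one]
    split_ifs <;> simp
  map_zero' := by
    refine HahnSeries.ext (funext fun j => ?_)
    rw [HahnSeries.map_coeff]
    simp
  map_add' x y := by
    refine HahnSeries.ext (funext fun j => ?_)
    rw [HahnSeries.map_coeff, HahnSeries.coeff_add, HahnSeries.coeff_add, HahnSeries.map_coeff,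
      HahnSeries.map_coeff, map_add]
  map_mul' x y := HahnSeries.map_mul ((frobenius F 2 : F →+* F) : F →ₙ+* F)

theorem sg0_coeff (x : HahnSeries ℤ F) (j : ℤ) : (sg0 x).coeff j = (x.coeff j) ^ 2 := by
  show frobenius F 2 (x.coeff j) = _
  rw [frobenius_def]

theorem sg0_sg0 (x : HahnSeries ℤ F) : sg0 (sg0 x) = x := by
  ext j
  rw [sg0_coeff, sg0_coeff, ← pow_mul]
  exact pow_four _

theorem nm_sg0_le (x : HahnSeries ℤ F) : nm (sg0 x) ≤ nm x := by
  by_cases hx : x = 0
  · rw [hx, map_zero]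
  · have h : nm x = (2 : ℝ) ^ (-x.order) := if_neg hx
    rw [h, nm_le_iff]
    intro j hj
    rw [sg0_coeff, HahnSeries.coeff_eq_zero_of_lt_order hj]
    simp

theorem nm_sg0 (x : HahnSeries ℤ F) : nm (sg0 x) = nm x := by
  refine le_antisymm (nm_sg0_le x) ?_
  have h := nm_sg0_le (sg0 x)
  rwa [sg0_sg0] at h

/-- the coefficientwise Frobenius -/
noncomputable def sg : LK →+* LK := sg0

theorem sg_sg (x : LK) : sg (sg x) = x := sg0_sg0 x

theorem norm_sg (x : LK) : ‖sg x‖ = ‖x‖ := nm_sg0 x

theorem sg_continuous : Continuous sg := by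
  have h : Isometry (fun x : LK => sg x) := by
    refine Isometry.of_dist_eq fun x y => ?_
    rw [dist_eq_norm, dist_eq_norm, ← map_sub, norm_sg]
  exact h.continuous

instance : IsUltrametricDist LK :=
  IsUltrametricDist.isUltrametricDist_of_isNonarchimedean_norm (fun x y => nm_add_le x y)

/-- monomials -/
noncomputable def mono (m : ℤ) (r : F) : LK := (HahnSeries.single m r : HahnSeries ℤ F)

theorem norm_mono (m : ℤ) (r : F) (hr : r ≠ 0) : ‖mono m r‖ = (2 : ℝ) ^ (-m) := by
  show nm (HahnSeries.single m r) = _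
  unfold nm
  rw [if_neg (by simpa using hr), HahnSeries.order_single hr]

theorem sg_mono (m : ℤ) (r : F) : sg (mono m r) = mono m (r ^ 2) := by
  refine HahnSeries.ext (funext fun j => ?_)
  show (sg0 (HahnSeries.single m r)).coeff j = (HahnSeries.single m (r ^ 2)).coeff j
  rw [sg0_coeff]
  by_cases h : j = m
  · subst h
    rw [HahnSeries.coeff_single_same, HahnSeries.coeff_single_same]
  · rw [HahnSeries.coeff_single_of_ne h, HahnSeries.coeff_single_of_ne h]
    simp

theorem mono_sub (m : ℤ) (r s : F) : mono m r - mono m s = mono m (r - s) := by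
  refine HahnSeries.ext (funext fun j => ?_)
  show (HahnSeries.single m r - HahnSeries.single m s).coeff j = (HahnSeries.single m (r - s)).coeff j
  rw [HahnSeries.coeff_sub]
  by_cases h : j = m
  · subst h
    rw [HahnSeries.coeff_single_same, HahnSeries.coeff_single_same, HahnSeries.coeff_single_same]
  · rw [HahnSeries.coeff_single_of_ne h, HahnSeries.coeff_single_of_ne h,
      HahnSeries.coeff_single_of_ne h, sub_zero]

theorem w_ne : w ≠ 0 := by
  intro h
  have h1 := w_sq
  rw [h] at h1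
  simp at h1

theorem two_F : (2 : F) = 0 := CharTwo.two_eq_zero

theorem w_sub : w - w ^ 2 = 1 := by
  rw [w_sq]
  linear_combination -two_F

theorem two_LK : (2 : LK) = 0 := by
  refine HahnSeries.ext (funext fun j => ?_)
  show (2 : HahnSeries ℤ F).coeff j = 0
  have h : (2 : HahnSeries ℤ F) = 1 + 1 := by norm_num
  rw [h, HahnSeries.coeff_add, HahnSeries.coeff_one]
  split_ifs
  · have := two_F
    rw [← this]; norm_num
  · rw [add_zero]

/-- the elements `1 + w t ^ (2 n + 1)` -/
noncomputable def a (n : ℕ) : LK := 1 + mono (2 * n + 1) w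

theorem norm_x (n : ℕ) : ‖mono (2 * n + 1) w‖ = (2 : ℝ) ^ (-(2 * (n : ℤ) + 1)) := norm_mono _ _ w_ne

theorem pow_le_one (n : ℕ) : (2 : ℝ) ^ (-(2 * (n : ℤ) + 1)) < 1 := by
  rw [zpow_lt_one_iff_right₀ (by norm_num)]
  omega

theorem norm_of_sub_lt {x : LK} (h : ‖x - 1‖ < 1) : ‖x‖ = 1 := by
  have h1 : x = (x - 1) + 1 := by ring
  rw [h1, IsUltrametricDist.norm_add_eq_max_of_norm_ne_norm (by rw [norm_one]; exact h.ne), norm_one,
    max_eq_right h.le]

theorem prod_sub_one (N : ℕ) (S : Finset ℕ) (hS : ∀ n ∈ S, N ≤ n) :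
    ‖∏ n ∈ S, a n - 1‖ ≤ (2 : ℝ) ^ (-(2 * (N : ℤ) + 1)) := by
  classical
  induction S using Finset.induction with
  | empty => rw [Finset.prod_empty, sub_self, norm_zero]; positivity
  | insert i S hi ih =>
    have ih' := ih (fun n hn => hS n (Finset.mem_insert_of_mem hn))
    have h1 : ‖∏ n ∈ S, a n‖ = 1 := norm_of_sub_lt (ih'.trans_lt (pow_le_one N))
    rw [Finset.prod_insert hi]
    have h2 : a i * ∏ n ∈ S, a n - 1 = (∏ n ∈ S, a n - 1) + mono (2 * i + 1) w * ∏ n ∈ S, a n := by
      unfold a; ring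
    rw [h2]
    refine (IsUltrametricDist.norm_add_le_max _ _).trans (max_le ih' ?_)
    rw [norm_mul, h1, mul_one, norm_x]
    have h3 := hS i (Finset.mem_insert_self i S)
    rw [zpow_le_zpow_iff_right₀ (by norm_num)]
    omega

theorem norm_prod (S : Finset ℕ) : ‖∏ n ∈ S, a n‖ = 1 :=
  norm_of_sub_lt ((prod_sub_one 0 S (fun n _ => Nat.zero_le n)).trans_lt (pow_le_one 0))

theorem a_ne (n : ℕ) : a n ≠ 0 := by
  have h := norm_prod {n}
  rw [Finset.prod_singleton] at h
  intro h0
  rw [h0, norm_zero] at h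
  exact zero_ne_one h

theorem prod_sub_sg (S : Finset ℕ) (hS : S.Nonempty) :
    ‖∏ n ∈ S, a n - sg (∏ n ∈ S, a n)‖ = (2 : ℝ) ^ (-(2 * (S.min' hS : ℤ) + 1)) := by
  classical
  set i := S.min' hS with hi
  have hiS : i ∈ S := S.min'_mem hS
  set Q := ∏ n ∈ S.erase i, a n with hQ
  have hP : ∏ n ∈ S, a n = a i * Q := (Finset.mul_prod_erase S a hiS).symm
  have hR : ‖Q - 1‖ ≤ (2 : ℝ) ^ (-(2 * ((i + 1 : ℕ) : ℤ) + 1)) := by
    refine prod_sub_one (i + 1) _ (fun n hn => ?_)
    have h1 := S.min'_le n (Finset.mem_of_mem_erase hn)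
    have h2 := Finset.ne_of_mem_erase hn
    omega
  have hlt : (2 : ℝ) ^ (-(2 * ((i + 1 : ℕ) : ℤ) + 1)) < (2 : ℝ) ^ (-(2 * (i : ℤ) + 1)) := by
    rw [zpow_lt_zpow_iff_right₀ (by norm_num)]
    push_cast
    omega
  have hx : mono (2 * i + 1) w - sg (mono (2 * i + 1) w) = mono (2 * i + 1) 1 := by
    rw [sg_mono, mono_sub, w_sub]
  have hai : ‖a i‖ = 1 := by
    have := norm_prod {i}
    rwa [Finset.prod_singleton] at this
  have h1 : ∏ n ∈ S, a n - sg (∏ n ∈ S, a n) =
      (a i * (Q - 1) - sg (a i) * sg (Q - 1)) + mono (2 * i + 1) 1 := by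
    rw [hP, ← hx, map_mul, map_sub, map_one]
    have : sg (a i) = 1 + sg (mono (2 * i + 1) w) := by
      unfold a
      rw [map_add, map_one]
    rw [this]
    unfold a
    ring
  have h2 : ‖a i * (Q - 1) - sg (a i) * sg (Q - 1)‖ < (2 : ℝ) ^ (-(2 * (i : ℤ) + 1)) := by
    refine lt_of_le_of_lt ?_ hlt
    rw [sub_eq_add_neg]
    refine (IsUltrametricDist.norm_add_le_max _ _).trans (max_le ?_ ?_)
    · rw [norm_mul, hai, one_mul]; exact hR
    · rw [norm_neg, norm_mul, norm_sg, norm_sg, hai, one_mul]; exact hR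
  have h3 : ‖mono (2 * i + 1) (1 : F)‖ = (2 : ℝ) ^ (-(2 * (i : ℤ) + 1)) := norm_mono _ _ one_ne_zero
  rw [h1, IsUltrametricDist.norm_add_eq_max_of_norm_ne_norm (by rw [h3]; exact h2.ne), h3,
    max_eq_right h2.le]

theorem not_square (S : Finset ℕ) (hS : S.Nonempty) (s : LK) :
    ∏ n ∈ S, a n ≠ s ^ 2 * sg (∏ n ∈ S, a n) := by
  intro h
  set P := ∏ n ∈ S, a n with hP
  have h1 : P - sg P = (s - 1) ^ 2 * sg P := by
    have : (s - 1) ^ 2 = s ^ 2 - 1 := by linear_combination (1 - s) * two_LK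
    rw [this, sub_mul, ← h, one_mul]
  have h2 := prod_sub_sg S hS
  rw [← hP, h1, norm_mul, norm_sg, norm_prod S, mul_one, norm_pow] at h2
  by_cases hs : s - 1 = 0
  · rw [hs, norm_zero] at h2
    have : (0 : ℝ) < (2 : ℝ) ^ (-(2 * (S.min' hS : ℤ) + 1)) := by positivity
    rw [← h2] at this
    simp at this
  · have h3 : ‖s - 1‖ = (2 : ℝ) ^ (-(HahnSeries.order (s - 1 : LK))) := if_neg hs
    rw [h3, ← zpow_natCast, ← zpow_mul] at h2
    have h4 := zpow_right_injective₀ (by norm_num : (0 : ℝ) < 2) (by norm_num) h2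
    push_cast at h4
    omega

/-- `u / σ u` -/
noncomputable def mu : LKˣ →* LKˣ where
  toFun u := u / Units.map (sg : LK →* LK) u
  map_one' := by rw [map_one, div_one]
  map_mul' u v := by rw [map_mul, mul_div_mul_comm]

theorem mu_apply (u : LKˣ) : mu u = u / Units.map (sg : LK →* LK) u := rfl

/-- **The character**: it is invariant under `σ` and discontinuous at `1`. -/
theorem exists_chi : ∃ χ : LKˣ →* ℤˣ, (∀ u : LKˣ, χ (Units.map (sg : LK →* LK) u) = χ u) ∧
    ∃ u : ℕ → LKˣ, (∀ n, χ (u n) = -1) ∧ Tendsto (fun n => ((u n : LKˣ) : LK)) atTop (𝓝 1) := by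
  have hb : ∀ S : Finset ℕ, S.Nonempty → ∀ s : LKˣ,
      ∏ n ∈ S, mu (Units.mk0 (a n) (a_ne n)) ≠ s ^ 2 := by
    intro S hS s h
    rw [← map_prod, mu_apply] at h
    have h1 : ∏ n ∈ S, Units.mk0 (a n) (a_ne n) =
        s ^ 2 * Units.map (sg : LK →* LK) (∏ n ∈ S, Units.mk0 (a n) (a_ne n)) := by
      rw [← h, div_mul_cancel]
    have h2 := congrArg (fun u : LKˣ => (u : LK)) h1
    simp only [Units.val_mul, Units.val_pow_eq_pow_val, Units.coe_prod, Units.val_mk0,
      Units.coe_map] at h2
    exact not_square S hS s h2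
  obtain ⟨ψ, hψ⟩ := exists_character _ hb
  refine ⟨ψ.comp mu, fun u => ?_, fun n => Units.mk0 (a n) (a_ne n), fun n => hψ n, ?_⟩
  · have h1 : Units.map (sg : LK →* LK) (Units.map (sg : LK →* LK) u) = u := by
      apply Units.ext
      exact sg_sg _
    have h2 : mu (Units.map (sg : LK →* LK) u) = (mu u)⁻¹ := by
      rw [mu_apply, mu_apply, h1, inv_div]
    rw [MonoidHom.comp_apply, MonoidHom.comp_apply, h2, map_inv]
    rcases Int.units_eq_one_or (ψ (mu u)) with h | h <;> rw [h] <;> rfl
  · rw [tendsto_iff_norm_sub_tendsto_zero]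
    have h1 : ∀ n : ℕ, ‖((Units.mk0 (a n) (a_ne n) : LKˣ) : LK) - 1‖ = (2 : ℝ) ^ (-(2 * (n : ℤ) + 1)) := by
      intro n
      rw [Units.val_mk0]
      unfold a
      rw [add_sub_cancel_left, norm_x]
    have h2 : ∀ n : ℕ, (2 : ℝ) ^ (-(2 * (n : ℤ) + 1)) ≤ (1 / 2 : ℝ) ^ n := by
      intro n
      rw [one_div, inv_pow, ← zpow_natCast, ← zpow_neg, zpow_le_zpow_iff_right₀ (by norm_num)]
      omega
    refine squeeze_zero (fun n => norm_nonneg _) (fun n => ?_)
      (tendsto_pow_atTop_nhds_zero_of_lt_one (by norm_num : (0 : ℝ) ≤ 1 / 2) (by norm_num))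
    rw [h1]
    exact h2 n

theorem sg_w : sg (mono 0 w) ≠ mono 0 w := by
  intro h
  have h1 : mono 0 w - sg (mono 0 w) = 0 := by rw [h, sub_self]
  rw [sg_mono, mono_sub, w_sub] at h1
  have h2 := norm_mono 0 (1 : F) one_ne_zero
  rw [h1, norm_zero] at h2
  norm_num at h2

end Pool.Agent.Q110.S3T
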