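import Mathlib

/-!
# Moebius transformations and their twists on the one point compactification of a proper field
-/

set_option autoImplicit false
set_option linter.unusedSectionVars false

open Filter Topology OnePoint Bornology

namespace Pool.Agent.Q110.S3T

section mob

variable {K : Type} [NormedField K] [ProperSpace K] [DecidableEq K]

/-- the inversion -/
noncomputable def J (x : OnePoint K) : OnePoint K :=
  x.elim ((0 : K) : OnePoint K) (fun k => if k = 0 then ∞ else ((k⁻¹ : K) : OnePoint K))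

theorem coclosed : coclosedCompact K = cobounded K := by
  rw [coclosedCompact_eq_cocompact, Metric.cobounded_eq_cocompact]

theorem J_continuous : Continuous (J (K := K)) := by
  rw [continuous_iff_continuousAt]
  intro x
  induction x using OnePoint.rec with
  | infty =>
    rw [continuousAt_infty', coclosed]
    have h1 : Tendsto (fun k : K => ((k⁻¹ : K) : OnePoint K)) (cobounded K) (𝓝 ((0 : K) : OnePoint K)) :=
      (OnePoint.continuous_coe.tendsto (0 : K)).comp tendsto_inv₀_cobounded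
    refine h1.congr' ?_
    filter_upwards [eventually_ne_cobounded (0 : K)] with k hk
    simp [J, hk]
  | coe k =>
    rw [continuousAt_coe]
    by_cases hk : k = 0
    · subst hk
      have h0 : J ((0 : K) : OnePoint K) = ∞ := by simp [J]
      unfold ContinuousAt
      rw [Function.comp_apply, h0, ← nhdsNE_sup_pure, tendsto_sup]
      constructor
      · have h1 : Tendsto (fun k : K => ((k⁻¹ : K) : OnePoint K)) (𝓝[≠] 0) (𝓝 ∞) := by
          have h2 : Tendsto (fun k : K => (k : OnePoint K)) (cobounded K) (𝓝 ∞) := by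
            rw [nhds_infty_eq, coclosed]
            exact tendsto_map.mono_right le_sup_left
          exact h2.comp tendsto_inv₀_nhdsNE_zero
        refine h1.congr' ?_
        filter_upwards [self_mem_nhdsWithin] with k hk
        have hk' : k ≠ 0 := hk
        simp [J, hk']
      · rw [tendsto_pure_left]
        intro s hs
        simp only [Function.comp_apply]
        rw [h0]
        exact mem_of_mem_nhds hs
    · have h1 : ContinuousAt (fun k : K => ((k⁻¹ : K) : OnePoint K)) k :=
        ContinuousAt.comp (g := fun k : K => (k : OnePoint K)) OnePoint.continuous_coe.continuousAt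
          (continuousAt_inv₀ hk)
      refine h1.congr ?_
      filter_upwards [isOpen_ne.mem_nhds hk] with k' hk'
      have hk'' : k' ≠ 0 := hk'
      simp [J, hk'']

theorem affine_continuous (u v : K) (hu : u ≠ 0) :
    Continuous (OnePoint.map (fun k : K => u * k + v)) := by
  exact (Homeomorph.onePointCongr ((Homeomorph.mulLeft₀ u hu).trans (Homeomorph.addRight v))).continuous

theorem det_entries (A : GL (Fin 2) K) : A 0 0 * A 1 1 - A 0 1 * A 1 0 ≠ 0 := by
  have h := A.det_ne_zero
  rwa [Matrix.det_fin_two] at h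

theorem mob_continuous (A : GL (Fin 2) K) : Continuous (fun x : OnePoint K => A • x) := by
  have hdet := det_entries A
  by_cases hc : A 1 0 = 0
  · rw [hc, mul_zero, sub_zero] at hdet
    have ha : A 0 0 ≠ 0 := left_ne_zero_of_mul hdet
    have hd : A 1 1 ≠ 0 := right_ne_zero_of_mul hdet
    have : (fun x : OnePoint K => A • x) = OnePoint.map (fun k : K => (A 0 0 / A 1 1) * k + A 0 1 / A 1 1) := by
      funext x
      induction x using OnePoint.rec with
      | infty => rw [smul_infty_eq_ite, if_pos hc, OnePoint.map_infty]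
      | coe k =>
        rw [smul_some_eq_ite, OnePoint.map_some, hc, zero_mul, zero_add, if_neg hd]
        congr 1
        field_simp
    rw [this]
    exact affine_continuous _ _ (div_ne_zero ha hd)
  · have : (fun x : OnePoint K => A • x) = fun x => OnePoint.map
        (fun k : K => (-((A 0 0 * A 1 1 - A 0 1 * A 1 0) / A 1 0)) * k + A 0 0 / A 1 0)
        (J (OnePoint.map (fun k : K => A 1 0 * k + A 1 1) x)) := by
      funext x
      induction x using OnePoint.rec with
      | infty =>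
        rw [smul_infty_eq_ite, if_neg hc, OnePoint.map_infty]
        simp [J]
      | coe k =>
        rw [smul_some_eq_ite, OnePoint.map_some]
        by_cases hk : A 1 0 * k + A 1 1 = 0
        · rw [if_pos hk, hk]
          simp [J]
        · rw [if_neg hk]
          simp only [J, OnePoint.elim_some, if_neg hk, OnePoint.map_some]
          congr 1
          rw [div_eq_iff hk, add_mul, mul_assoc, inv_mul_cancel₀ hk, mul_one]
          field_simp
          ring
    rw [this]
    exact (affine_continuous _ _ (neg_ne_zero.2 (div_ne_zero hdet hc))).comp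
      (J_continuous.comp (affine_continuous _ _ hc))

end mob

section group

variable {K : Type} [Field K] [DecidableEq K] (σ : K →+* K) (hσσ : ∀ x, σ (σ x) = x)
  (χ : Kˣ →* ℤˣ) (hχ : ∀ u : Kˣ, χ (Units.map (σ : K →* K) u) = χ u)

theorem mapmap (hσσ : ∀ x, σ (σ x) = x) (x : OnePoint K) : OnePoint.map σ (OnePoint.map σ x) = x := by
  induction x using OnePoint.rec with
  | infty => rfl
  | coe k => rw [OnePoint.map_some, OnePoint.map_some, hσσ]

theorem det_map (hχ : ∀ u : Kˣ, χ (Units.map (σ : K →* K) u) = χ u) (A : GL (Fin 2) K) :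
    χ (Matrix.GeneralLinearGroup.det (A.map σ)) = χ (Matrix.GeneralLinearGroup.det A) := by
  rw [Matrix.GeneralLinearGroup.map_det]
  exact hχ _

/-- the permutations `x ↦ A x` with `χ (det A) = 1` and `x ↦ A (σ x)` with `χ (det A) = -1` -/
def G : Subgroup (Equiv.Perm (OnePoint K)) where
  carrier := {p | ∃ A : GL (Fin 2) K,
    (χ (Matrix.GeneralLinearGroup.det A) = 1 ∧ ∀ x, p x = A • x) ∨
    (χ (Matrix.GeneralLinearGroup.det A) = -1 ∧ ∀ x, p x = A • (OnePoint.map σ x))}
  one_mem' := ⟨1, Or.inl ⟨by rw [map_one, map_one], fun x => by rw [one_smul]; rfl⟩⟩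
  mul_mem' := by
    rintro p q ⟨A, ⟨hA, hp⟩ | ⟨hA, hp⟩⟩ ⟨B, ⟨hB, hq⟩ | ⟨hB, hq⟩⟩
    · exact ⟨A * B, Or.inl ⟨by rw [map_mul, map_mul, hA, hB, mul_one],
        fun x => by rw [Equiv.Perm.mul_apply, hq, hp, mul_smul]⟩⟩
    · exact ⟨A * B, Or.inr ⟨by rw [map_mul, map_mul, hA, hB, one_mul],
        fun x => by rw [Equiv.Perm.mul_apply, hq, hp, mul_smul]⟩⟩
    · exact ⟨A * (B.map σ), Or.inr ⟨by rw [map_mul, map_mul, det_map σ χ hχ, hA, hB, mul_one],
        fun x => by rw [Equiv.Perm.mul_apply, hq, hp, OnePoint.map_smul, mul_smul]⟩⟩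
    · exact ⟨A * (B.map σ), Or.inl ⟨by rw [map_mul, map_mul, det_map σ χ hχ, hA, hB]; rfl,
        fun x => by rw [Equiv.Perm.mul_apply, hq, hp, OnePoint.map_smul, mapmap σ hσσ, mul_smul]⟩⟩
  inv_mem' := by
    rintro p ⟨A, ⟨hA, hp⟩ | ⟨hA, hp⟩⟩
    · refine ⟨A⁻¹, Or.inl ⟨by rw [map_inv, map_inv, hA, inv_one], fun x => ?_⟩⟩
      rw [Equiv.Perm.inv_eq_iff_eq, hp, smul_inv_smul]
    · refine ⟨(A⁻¹).map σ, Or.inr ⟨by rw [det_map σ χ hχ, map_inv, map_inv, hA]; rfl, fun x => ?_⟩⟩
      rw [Equiv.Perm.inv_eq_iff_eq, hp, ← OnePoint.map_smul, mapmap σ hσσ, smul_inv_smul]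

theorem mem_G (p : Equiv.Perm (OnePoint K)) : p ∈ G σ hσσ χ hχ ↔ ∃ A : GL (Fin 2) K,
    (χ (Matrix.GeneralLinearGroup.det A) = 1 ∧ ∀ x, p x = A • x) ∨
    (χ (Matrix.GeneralLinearGroup.det A) = -1 ∧ ∀ x, p x = A • (OnePoint.map σ x)) := Iff.rfl

/-- for every matrix there is an element of `G` -/
theorem exists_mem (A : GL (Fin 2) K) : ∃ p ∈ G σ hσσ χ hχ,
    ∀ x, p x = if χ (Matrix.GeneralLinearGroup.det A) = 1 then A • x else A • (OnePoint.map σ x) := by
  by_cases h : χ (Matrix.GeneralLinearGroup.det A) = 1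
  · refine ⟨MulAction.toPerm A, ⟨A, Or.inl ⟨h, fun x => rfl⟩⟩, fun x => ?_⟩
    rw [if_pos h]; rfl
  · have h' : χ (Matrix.GeneralLinearGroup.det A) = -1 := (Int.units_eq_one_or _).resolve_left h
    let τ : Equiv.Perm (OnePoint K) := ⟨OnePoint.map σ, OnePoint.map σ, mapmap σ hσσ, mapmap σ hσσ⟩
    refine ⟨MulAction.toPerm A * τ, ⟨A, Or.inr ⟨h', fun x => rfl⟩⟩, fun x => ?_⟩
    rw [if_neg h]; rfl

/-- the entries `a, b; c, d` -/
noncomputable def mk (a b c d : K) (h : a * d - b * c ≠ 0) : GL (Fin 2) K :=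
  Matrix.GeneralLinearGroup.mkOfDetNeZero !![a, b; c, d] (by rwa [Matrix.det_fin_two_of])

theorem mk_00 (a b c d : K) (h : a * d - b * c ≠ 0) : mk a b c d h 0 0 = a := rfl
theorem mk_01 (a b c d : K) (h : a * d - b * c ≠ 0) : mk a b c d h 0 1 = b := rfl
theorem mk_10 (a b c d : K) (h : a * d - b * c ≠ 0) : mk a b c d h 1 0 = c := rfl
theorem mk_11 (a b c d : K) (h : a * d - b * c ≠ 0) : mk a b c d h 1 1 = d := rfl

theorem mk_det (a b c d : K) (h : a * d - b * c ≠ 0) :
    (Matrix.GeneralLinearGroup.det (mk a b c d h)) = Units.mk0 (a * d - b * c) h := by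
  apply Units.ext
  rw [Matrix.GeneralLinearGroup.val_det_apply, Units.val_mk0, Matrix.det_fin_two, mk_00, mk_01,
    mk_10, mk_11]

/-- `PGL₂` moves the standard triple to every triple -/
theorem exists_mob (x y z : OnePoint K) (hxy : x ≠ y) (hxz : x ≠ z) (hyz : y ≠ z) :
    ∃ A : GL (Fin 2) K, A • (∞ : OnePoint K) = x ∧ A • ((0 : K) : OnePoint K) = y ∧
      A • ((1 : K) : OnePoint K) = z := by
  induction x using OnePoint.rec with
  | infty =>
    obtain ⟨y, rfl⟩ := OnePoint.ne_infty_iff_exists.1 hxy.symm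
    obtain ⟨z, rfl⟩ := OnePoint.ne_infty_iff_exists.1 hxz.symm
    have hyz' : z - y ≠ 0 := sub_ne_zero.2 (fun h => hyz (by rw [h]))
    refine ⟨mk (z - y) y 0 1 (by simpa using hyz'), ?_, ?_, ?_⟩
    · rw [smul_infty_eq_ite, mk_10, if_pos rfl]
    · rw [smul_some_eq_ite, mk_10, mk_11, mk_00, mk_01]; simp
    · rw [smul_some_eq_ite, mk_10, mk_11, mk_00, mk_01]; simp
  | coe x =>
    induction y using OnePoint.rec with
    | infty =>
      obtain ⟨z, rfl⟩ := OnePoint.ne_infty_iff_exists.1 hyz.symm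
      have hxz' : z - x ≠ 0 := sub_ne_zero.2 (fun h => hxz (by rw [h]))
      refine ⟨mk x (z - x) 1 0 (by
        intro h
        apply hxz'
        linear_combination -h), ?_, ?_, ?_⟩
      · rw [smul_infty_eq_ite, mk_10, mk_00, if_neg one_ne_zero, div_one]
      · rw [smul_some_eq_ite, mk_10, mk_11, mk_00, mk_01]; simp
      · rw [smul_some_eq_ite, mk_10, mk_11, mk_00, mk_01]; simp
    | coe y =>
      have hxy' : x - y ≠ 0 := sub_ne_zero.2 (fun h => hxy (by rw [h]))
      induction z using OnePoint.rec with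
      | infty =>
        refine ⟨mk x (-y) 1 (-1) (by
          intro h
          apply hxy'
          linear_combination -h), ?_, ?_, ?_⟩
        · rw [smul_infty_eq_ite, mk_10, mk_00, if_neg one_ne_zero, div_one]
        · rw [smul_some_eq_ite, mk_10, mk_11, mk_00, mk_01]; simp
        · rw [smul_some_eq_ite, mk_10, mk_11, mk_00, mk_01]; simp
      | coe z =>
        have hxz' : x - z ≠ 0 := sub_ne_zero.2 (fun h => hxz (by rw [h]))
        have hyz' : z - y ≠ 0 := sub_ne_zero.2 (fun h => hyz (by rw [h]))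
        refine ⟨mk (x * (z - y)) (y * (x - z)) (z - y) (x - z) (by
          have : x * (z - y) * (x - z) - y * (x - z) * (z - y) = (x - y) * (z - y) * (x - z) := by ring
          rw [this]
          exact mul_ne_zero (mul_ne_zero hxy' hyz') hxz'), ?_, ?_, ?_⟩
        · rw [smul_infty_eq_ite, mk_10, mk_00, if_neg hyz', mul_div_cancel_right₀ _ hyz']
        · rw [smul_some_eq_ite, mk_10, mk_11, mk_00, mk_01, mul_zero, zero_add, if_neg hxz', mul_zero,
            zero_add, mul_div_cancel_right₀ _ hxz']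
        · have h1 : (z - y) * 1 + (x - z) = x - y := by ring
          rw [smul_some_eq_ite, mk_10, mk_11, mk_00, mk_01, h1, if_neg hxy']
          congr 1
          rw [div_eq_iff hxy']
          ring

theorem exists_triple (x y z : OnePoint K) (hxy : x ≠ y) (hxz : x ≠ z) (hyz : y ≠ z) :
    ∃ p ∈ G σ hσσ χ hχ, p ∞ = x ∧ p ((0 : K) : OnePoint K) = y ∧ p ((1 : K) : OnePoint K) = z := by
  obtain ⟨A, h1, h2, h3⟩ := exists_mob x y z hxy hxz hyz
  obtain ⟨p, hp, hpA⟩ := exists_mem σ hσσ χ hχ A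
  refine ⟨p, hp, ?_, ?_, ?_⟩
  · rw [hpA, OnePoint.map_infty, ite_self, h1]
  · rw [hpA, OnePoint.map_some, map_zero, ite_self, h2]
  · rw [hpA, OnePoint.map_some, map_one, ite_self, h3]

theorem fix_mob (A : GL (Fin 2) K) (h1 : A • (∞ : OnePoint K) = ∞)
    (h2 : A • ((0 : K) : OnePoint K) = ((0 : K) : OnePoint K))
    (h3 : A • ((1 : K) : OnePoint K) = ((1 : K) : OnePoint K)) :
    (∀ x : OnePoint K, A • x = x) ∧ ∀ χ : Kˣ →* ℤˣ, χ (Matrix.GeneralLinearGroup.det A) = 1 := by
  have hdet : A 0 0 * A 1 1 - A 0 1 * A 1 0 ≠ 0 := by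
    have h := A.det_ne_zero
    rwa [Matrix.det_fin_two] at h
  have hc : A 1 0 = 0 := smul_infty_eq_self_iff.1 h1
  rw [hc, mul_zero, sub_zero] at hdet
  have hd : A 1 1 ≠ 0 := right_ne_zero_of_mul hdet
  have hb : A 0 1 = 0 := by
    rw [smul_some_eq_ite, hc, zero_mul, zero_add, if_neg hd, mul_zero, zero_add] at h2
    have h4 := OnePoint.coe_injective h2
    rcases div_eq_zero_iff.1 h4 with h | h
    · exact h
    · exact (hd h).elim
  have ha : A 0 0 = A 1 1 := by
    rw [smul_some_eq_ite, hc, zero_mul, zero_add, if_neg hd, mul_one, hb, add_zero] at h3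
    have h4 := OnePoint.coe_injective h3
    rwa [div_eq_one_iff_eq hd] at h4
  constructor
  · intro x
    induction x using OnePoint.rec with
    | infty => exact h1
    | coe k =>
      rw [smul_some_eq_ite, hc, zero_mul, zero_add, if_neg hd, hb, add_zero, ha,
        mul_div_cancel_left₀ _ hd]
  · intro χ
    have h5 : Matrix.GeneralLinearGroup.det A = Units.mk0 (A 1 1) hd * Units.mk0 (A 1 1) hd := by
      apply Units.ext
      rw [Matrix.GeneralLinearGroup.val_det_apply, Units.val_mul, Units.val_mk0, Matrix.det_fin_two,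
        hb, ha, zero_mul, sub_zero]
    rw [h5, map_mul]
    exact Int.units_mul_self _

theorem eq_one_of_fix (p : Equiv.Perm (OnePoint K)) (hp : p ∈ G σ hσσ χ hχ) (h1 : p ∞ = ∞)
    (h2 : p ((0 : K) : OnePoint K) = ((0 : K) : OnePoint K))
    (h3 : p ((1 : K) : OnePoint K) = ((1 : K) : OnePoint K)) : p = 1 := by
  obtain ⟨A, ⟨hA, hpA⟩ | ⟨hA, hpA⟩⟩ := hp
  · rw [hpA] at h1 h2 h3
    have h := (fix_mob A h1 h2 h3).1
    ext x
    rw [hpA, h]; rfl
  · rw [hpA] at h1 h2 h3
    rw [OnePoint.map_infty] at h1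
    rw [OnePoint.map_some, map_zero] at h2
    rw [OnePoint.map_some, map_one] at h3
    have h := (fix_mob A h1 h2 h3).2 χ
    rw [hA] at h
    exact absurd h (by decide)

/-- the stabiliser of `∞` and `0` -/
theorem exists_diag (u : Kˣ) : ∃ p ∈ G σ hσσ χ hχ, p ∞ = ∞ ∧
    ∀ k : K, p (k : OnePoint K) = if χ u = 1 then ((u * k : K) : OnePoint K) else
      ((u * σ k : K) : OnePoint K) := by
  have hdet : (u : K) * 1 - 0 * 0 ≠ 0 := by simp
  obtain ⟨p, hp, hpA⟩ := exists_mem σ hσσ χ hχ (mk (u : K) 0 0 1 hdet)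
  have hd : Matrix.GeneralLinearGroup.det (mk (u : K) 0 0 1 hdet) = u := by
    rw [mk_det]
    apply Units.ext
    simp
  rw [hd] at hpA
  refine ⟨p, hp, ?_, fun k => ?_⟩
  · rw [hpA, OnePoint.map_infty, ite_self, smul_infty_eq_ite, mk_10, if_pos rfl]
  · rw [hpA]
    split_ifs with h
    · rw [smul_some_eq_ite, mk_10, mk_11, mk_00, mk_01]; simp
    · rw [OnePoint.map_some, smul_some_eq_ite, mk_10, mk_11, mk_00, mk_01]; simp

end group

section cont

variable {K : Type} [NormedField K] [ProperSpace K] [DecidableEq K] (σ : K →+* K)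
  (hσσ : ∀ x, σ (σ x) = x) (hσc : Continuous σ)
  (χ : Kˣ →* ℤˣ) (hχ : ∀ u : Kˣ, χ (Units.map (σ : K →* K) u) = χ u)

include hσc in
theorem continuous_mem (p : Equiv.Perm (OnePoint K)) (hp : p ∈ G σ hσσ χ hχ) : Continuous p := by
  obtain ⟨A, ⟨-, hpA⟩ | ⟨-, hpA⟩⟩ := hp
  · rw [show (p : OnePoint K → OnePoint K) = fun x => A • x from funext hpA]
    exact mob_continuous A
  · rw [show (p : OnePoint K → OnePoint K) = fun x => A • (OnePoint.map σ x) from funext hpA]
    refine (mob_continuous A).comp ?_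
    let e : K ≃ₜ K := ⟨⟨σ, σ, hσσ, hσσ⟩, hσc, hσc⟩
    exact (Homeomorph.onePointCongr e).continuous

end cont

end Pool.Agent.Q110.S3T
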